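import Pool.Agent.Results.MP_12adaf_nt.ShiftedPolynomials
import Pool.Agent.V11312.PW.Digits

/-!
# Weak approximation for ALL varieties `V_k : yᵢ² - aᵢ zᵢ² = cᵢ (f(t) + k)` with constant term in random residue classes

Let `f` be any integral polynomial in `m` variables of degree at least two. Let `m_0 | m_1 | m_2 | …` be moduli, `m_j` the product
of the first `j` of arbitrary bases `g_i + 2 ≥ 2` (for example `m_j = q ^ j`, or `m_j = (j + 1)!`), and let `n_j` be the residue
class modulo `m_j` with independent uniform digits `ω_0, …, ω_(j-1)` (that is, of a random `q`-adic, or profinite, integer). For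
almost all `ω`, for every large finite set `T` of primes, every precision `N` and every `B`, for all large `j` ALL integers
`k ≡ n_j (mod m_j)` with `|k| ≤ m_j (log m_j) ^ B` which satisfy the condition at the real place are such that weak
approximation holds for `V_k` at the primes of `T`, to the precision `N`.
-/

set_option autoImplicit false

namespace Pool.Agent.Results.MP_12adaf_nt.ShiftsInResidueClasses

open Finset MvPolynomial Filter Topology MeasureTheory
open Pool.Agent.Results.MP_12adaf_nt.ShiftedPolynomials (WA RealCond)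
open Pool.Agent.V11312.PD

/-- **All shifts in random residue classes.** Let `f` be an integral polynomial of degree at least two in `m` variables, `aᵢ`,
`cᵢ` nonzero integers, `V_k : yᵢ² - aᵢ zᵢ² = cᵢ (f(t) + k) ≠ 0`, and let `g_i + 2` be bases.
(1) There is a finite set `T₀` of primes such that for almost all digits `ω`, for all finite sets `T ⊇ T₀` of primes and all `N`
and `B`, for all large `j` ALL `k ≡ n_j (mod m_j)` with `|k| ≤ m_j (log m_j) ^ B` and with the condition `RealCond` at the real
place satisfy weak approximation of level `N` at the primes of `T`. (2) If the degree is odd and all `cᵢ = 1` this holds for all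
`T` and without `RealCond`. Examples: `m_j = q ^ j` and `m_j = (j + 1)!`. -/
theorem result :
    (∀ {m r : ℕ} (f : MvPolynomial (Fin m) ℤ) (_ : 2 ≤ f.totalDegree) (a c : Fin r → ℤ) (_ : ∀ i, a i ≠ 0)
      (_ : ∀ i, c i ≠ 0) (g : ℕ → ℕ),
      (∃ T₀ : Finset Nat.Primes, ∀ᵐ ω ∂(law g), ∀ T : Finset Nat.Primes, T₀ ⊆ T → ∀ N B : ℕ,
        ∃ j₀ : ℕ, ∀ j : ℕ, j₀ ≤ j → ∀ k : ℤ, InClass g ω B j k → RealCond f a c k → WA f a c T N k) ∧
      (Odd f.totalDegree → (∀ i, c i = 1) → ∀ᵐ ω ∂(law g), ∀ (T : Finset Nat.Primes) (N B : ℕ),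
        ∃ j₀ : ℕ, ∀ j : ℕ, j₀ ≤ j → ∀ k : ℤ, InClass g ω B j k → WA f a c T N k)) ∧
    (∀ q : ℕ, 2 ≤ q → ∀ j, modulus (fun _ => q - 2) j = q ^ j) ∧
    (∀ j : ℕ, modulus (fun i => i) j = (j + 1).factorial) := by
  classical
  refine ⟨fun {m r} f hf a c ha hc g => ?_, modulus_const, modulus_id⟩
  obtain ⟨⟨T₀, h1⟩, h2⟩ := ShiftedPolynomials.result f hf a c ha hc
  constructor
  · refine ⟨T₀, ?_⟩
    have h3 := ae_family g (ι := {T : Finset Nat.Primes // T₀ ⊆ T} × ℕ)
      (fun i k => RealCond f a c k → WA f a c i.1.1 i.2 k) (fun i U => by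
        obtain ⟨X₀, hX₀⟩ := h1 i.1.1 i.1.2 i.2 U
        refine ⟨X₀, fun X hX => ?_⟩
        have e : {k : ℤ | |k| ≤ (X : ℤ) ∧ ¬ (RealCond f a c k → WA f a c i.1.1 i.2 k)} =
            (((Icc (-(X : ℤ)) X).filter (fun k => ¬ (RealCond f a c k → WA f a c i.1.1 i.2 k)) : Finset ℤ) :
              Set ℤ) := by
          ext k
          simp only [Set.mem_ofPred_eq, coe_filter, mem_Icc, abs_le]
        rw [e, Set.ncard_coe_finset]
        convert hX₀ X hX)
    filter_upwards [h3] with ω hω T hT N B
    exact hω (⟨T, hT⟩, N) B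
  · intro hodd hc1
    have h3 := ae_family g (ι := Finset Nat.Primes × ℕ)
      (fun i k => WA f a c i.1 i.2 k) (fun i U => by
        obtain ⟨X₀, hX₀⟩ := h2 hodd hc1 i.1 i.2 U
        refine ⟨X₀, fun X hX => ?_⟩
        have e : {k : ℤ | |k| ≤ (X : ℤ) ∧ ¬ WA f a c i.1 i.2 k} =
            (((Icc (-(X : ℤ)) X).filter (fun k => ¬ WA f a c i.1 i.2 k) : Finset ℤ) : Set ℤ) := by
          ext k
          simp only [Set.mem_ofPred_eq, coe_filter, mem_Icc, abs_le]
        rw [e, Set.ncard_coe_finset]
        convert hX₀ X hX)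
    filter_upwards [h3] with ω hω T N B
    exact hω (T, N) B

end Pool.Agent.Results.MP_12adaf_nt.ShiftsInResidueClasses
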