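import Pool.Agent.Results.MP_12adaf_nt.ShiftedPolynomials
import Pool.Agent.V1110.SpB
import Pool.Agent.Y854.GM.Rate

/-!
# Weak approximation for the varieties `yᵢ² - aᵢ zᵢ² = cᵢ (f(t₁, ..., t_m) + k)`, `k` in a sparse sequence

The starting result `ShiftedPolynomials` of this problem treats the smooth geometrically rational varieties
`V_k : yᵢ² - aᵢ zᵢ² = cᵢ (f(t) + k) ≠ 0`, `i < r`, where `f` is any integral polynomial of degree `d ≥ 2` in any
number of variables: for all but `X / (log X) ^ U` of the integers `|k| ≤ X` weak approximation at the finite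
places holds for `V_k`.

Here `k` is taken from a sequence `± ⌊α n ^ p⌋`, where `p > 1` is any real number: a sparse sequence (about
`X^{1/p}` integers up to `X`), of which no infinite part is excluded by a statement on almost all `k`. The
theorem: there is one set `A₀` of real numbers of Hausdorff dimension smaller than one such that for all
real `α > 0` outside `A₀`, both signs, ALL polynomials `f` in any number of variables, all `aᵢ`, `cᵢ`, all
finite sets of primes and all precisions, the exceptional `n ≤ M` number at most `M / (log M) ^ U`, for every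
`U`.
-/

set_option autoImplicit false

open Filter Topology

namespace Pool.Agent.Results.MP_12adaf_nt.SparseShifts

open Pool.Agent.Results.MP_12adaf_nt.ShiftedPolynomials

/-- the number of the `1 ≤ n ≤ M` such that `k = s ⌊α n ^ p⌋` has the property `Q` -/
noncomputable def along (α p : ℝ) (s : ℤ) (Q : ℤ → Prop) (M : ℕ) : ℕ :=
  Nat.card {n : ℕ // (1 ≤ n ∧ n ≤ M) ∧ Q (s * ⌊α * (n : ℝ) ^ p⌋₊)}

lemma cnt_mv (m : ℕ) : Countable (MvPolynomial (Fin m) ℤ) := by
  have : Countable ((Fin m →₀ ℕ) →₀ ℤ) := inferInstance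
  refine Function.Injective.countable (f := fun f : MvPolynomial (Fin m) ℤ =>
    (Finsupp.ofSupportFinite (fun x => MvPolynomial.coeff x f)
      (f.support.finite_toSet.subset (by intro x hx; simpa using hx)) :
        (Fin m →₀ ℕ) →₀ ℤ)) ?_
  intro f g h
  apply MvPolynomial.ext
  intro x
  have := DFunLike.congr_fun h x
  simpa [Finsupp.ofSupportFinite] using this

/-- the two kinds of exceptional `k` -/
def Bad (e : Bool) {m r : ℕ} (f : MvPolynomial (Fin m) ℤ) (a c : Fin r → ℤ) (T : Finset Nat.Primes)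
    (N : ℕ) (k : ℤ) : Prop :=
  if e then ¬ (RealCond f a c k → WA f a c T N k) else ¬ WA f a c T N k

open Classical in
lemma half {s : ℤ} (hs : s = 1 ∨ s = -1) (Q : ℤ → Prop) (X : ℕ) :
    ((Finset.Ioc 0 X).filter fun t : ℕ => Q (s * t)).card ≤
      ((Finset.Icc (-(X : ℤ)) X).filter fun k => Q k).card := by
  refine Finset.card_le_card_of_injOn (fun t : ℕ => s * (t : ℤ)) (fun t ht => ?_) fun t _ u _ h => ?_
  · obtain ⟨h1, h2⟩ := Finset.mem_filter.1 (Finset.mem_coe.1 ht)
    have h3 := Finset.mem_Ioc.1 h1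
    refine Finset.mem_coe.2 (Finset.mem_filter.2 ⟨Finset.mem_Icc.2 ?_, h2⟩)
    rcases hs with rfl | rfl <;> constructor <;> push_cast <;> omega
  · have h1 : s * (t : ℤ) = s * (u : ℤ) := h
    rcases hs with rfl | rfl <;> omega

open Classical in
/-- the transfer -/
theorem transfer (p : ℝ) (hp : 1 < p) : ∃ A₀ : Set ℝ, dimH A₀ < 1 ∧ ∀ α : ℝ, 0 < α → α ∉ A₀ →
    ∀ s : ℤ, (s = 1 ∨ s = -1) → ∀ (e : Bool) (m r : ℕ) (f : MvPolynomial (Fin m) ℤ)
      (a c : Fin r → ℤ) (T : Finset Nat.Primes) (N U : ℕ),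
      (∀ V : ℕ, ∃ X₀ : ℕ, ∀ X : ℕ, X₀ ≤ X →
        (((Finset.Icc (-(X : ℤ)) X).filter fun k => Bad e f a c T N k).card : ℝ) ≤
          X / Real.log X ^ V) →
      ∃ M₀ : ℕ, ∀ M : ℕ, M₀ ≤ M →
        (along α p s (Bad e f a c T N) M : ℝ) ≤ M / Real.log M ^ U := by
  have := cnt_mv
  obtain ⟨A₀, hA₀, h⟩ := Pool.Agent.Y854.GM.sets_lpow p hp
    (ι := (Σ v : ℕ × ℕ, MvPolynomial (Fin v.1) ℤ × (Fin v.2 → ℤ) × (Fin v.2 → ℤ)) ×
      Finset Nat.Primes × ℕ × ℤ × Bool)
    (fun v => {t | Bad v.2.2.2.2 v.1.2.1 v.1.2.2.1 v.1.2.2.2 v.2.1 v.2.2.1 (v.2.2.2.1 * t)})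
  refine ⟨A₀, hA₀, fun α hα hαA s hs e m r f a c T N U hV => ?_⟩
  obtain ⟨X₀, hX₀⟩ := hV (U + 1)
  obtain ⟨C', hC', N0, hN0⟩ := h α hα hαA (⟨(m, r), f, a, c⟩, T, N, s, e) (U + 1 : ℕ) 1
    (Nat.cast_nonneg _) zero_le_one ⟨X₀, fun X hX => by
      rw [Real.rpow_natCast, one_mul]
      refine le_trans ?_ (hX₀ X hX)
      exact_mod_cast half hs (Bad e f a c T N) X⟩
  -- the constant is absorbed
  have hlog : ∀ᶠ M : ℕ in atTop, max C' 1 ≤ Real.log M :=
    (Real.tendsto_log_atTop.comp tendsto_natCast_atTop_atTop).eventually_ge_atTop _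
  obtain ⟨N1, hN1⟩ := eventually_atTop.1 hlog
  refine ⟨max N0 N1, fun M hM => ?_⟩
  have h1 := hN0 M ((le_max_left _ _).trans hM)
  have h2 := hN1 M ((le_max_right _ _).trans hM)
  have h3 : 0 < Real.log M := lt_of_lt_of_le zero_lt_one ((le_max_right _ _).trans h2)
  rw [Real.rpow_natCast] at h1
  have h4 : along α p s (Bad e f a c T N) M = ((Finset.Icc 1 M).filter fun n : ℕ =>
      ⌊α * (n : ℝ) ^ p⌋₊ ∈ {t : ℕ | Bad e f a c T N (s * t)}).card := by
    unfold along
    refine Nat.subtype_card _ fun n => ?_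
    rw [Finset.mem_filter, Finset.mem_Icc]
    exact Iff.rfl
  rw [h4]
  refine h1.trans ?_
  rw [div_le_div_iff₀ (pow_pos h3 _) (pow_pos h3 _), pow_succ]
  have h5 : C' ≤ Real.log M := (le_max_left _ _).trans h2
  have h6 : (0 : ℝ) ≤ M * Real.log M ^ U := by positivity
  nlinarith [mul_le_mul_of_nonneg_left h5 h6]

/-- **Main theorem.** Let `p > 1` be a real number. There is a set `A₀` of real numbers of Hausdorff
dimension smaller than one such that for all real `α > 0` not in `A₀`, both signs `s`, all `m`, `r`, all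
integral polynomials `f` in `m` variables of degree at least two and all nonzero integers `a_i`, `c_i`:
(1) there is a finite set `T₀` of primes such that for all finite sets `T` of primes which contain `T₀` and
all `N`, `U` the number of the `n ≤ M` such that for `k = s ⌊α n ^ p⌋` the condition at the real place holds
but weak approximation for `V_k` of level `N` at the primes of `T` fails is at most `M / (log M) ^ U` for all
large `M`;
(2) if the degree is odd and all `c_i = 1` then, without any condition, for all finite sets `T` of primes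
and all `N`, `U` weak approximation for `V_k`, `k = s ⌊α n ^ p⌋`, of level `N` at the primes of `T` fails for at
most `M / (log M) ^ U` of the `n ≤ M`, for all large `M`. -/
theorem result (p : ℝ) (hp : 1 < p) :
    ∃ A₀ : Set ℝ, dimH A₀ < 1 ∧ ∀ α : ℝ, 0 < α → α ∉ A₀ → ∀ s : ℤ, (s = 1 ∨ s = -1) →
      ∀ (m r : ℕ) (f : MvPolynomial (Fin m) ℤ) (a c : Fin r → ℤ), 2 ≤ f.totalDegree →
        (∀ i, a i ≠ 0) → (∀ i, c i ≠ 0) →
        (∃ T₀ : Finset Nat.Primes, ∀ T : Finset Nat.Primes, T₀ ⊆ T → ∀ N U : ℕ, ∃ M₀ : ℕ,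
          ∀ M : ℕ, M₀ ≤ M → (along α p s (fun k => RealCond f a c k ∧ ¬ WA f a c T N k) M : ℝ) ≤
            M / Real.log M ^ U) ∧
        (Odd f.totalDegree → (∀ i, c i = 1) → ∀ (T : Finset Nat.Primes) (N U : ℕ), ∃ M₀ : ℕ,
          ∀ M : ℕ, M₀ ≤ M → (along α p s (fun k => ¬ WA f a c T N k) M : ℝ) ≤
            M / Real.log M ^ U) := by
  classical
  obtain ⟨A₀, hA₀, h⟩ := transfer p hp
  refine ⟨A₀, hA₀, fun α hα hαA s hs m r f a c hf ha hc => ?_⟩
  obtain ⟨⟨T₀, h1⟩, h2⟩ := ShiftedPolynomials.result f hf a c ha hc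
  refine ⟨⟨T₀, fun T hT N U => ?_⟩, fun ho hc1 T N U => ?_⟩
  · have h3 := h α hα hαA s hs true m r f a c T N U fun V => by
      obtain ⟨X₀, hX₀⟩ := h1 T hT N V
      refine ⟨X₀, fun X hX => le_trans (le_of_eq ?_) (hX₀ X hX)⟩
      congr 2
      ext k
      rw [Finset.mem_filter, Finset.mem_filter]
      refine and_congr_right fun _ => ?_
      unfold Bad
      rw [if_pos rfl]
    have e : (fun k => RealCond f a c k ∧ ¬ WA f a c T N k) = Bad true f a c T N := by
      funext k
      unfold Bad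
      rw [if_pos rfl]
      exact propext (by tauto)
    rw [e]
    exact h3
  · have h3 := h α hα hαA s hs false m r f a c T N U fun V => by
      obtain ⟨X₀, hX₀⟩ := h2 ho hc1 T N V
      refine ⟨X₀, fun X hX => le_trans (le_of_eq ?_) (hX₀ X hX)⟩
      congr 2
      ext k
      rw [Finset.mem_filter, Finset.mem_filter]
      refine and_congr_right fun _ => ?_
      unfold Bad
      rw [if_neg Bool.false_ne_true]
    have e : (fun k => ¬ WA f a c T N k) = Bad false f a c T N := by
      funext k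
      unfold Bad
      rw [if_neg Bool.false_ne_true]
    rw [e]
    exact h3

end Pool.Agent.Results.MP_12adaf_nt.SparseShifts
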