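import Pool.Agent.Results.MP_12adaf_nt.ShiftedPolynomials
import Pool.Agent.V11285.W6

/-!
# Weak approximation for ALL varieties `V_k : yᵢ² - aᵢ zᵢ² = cᵢ (f(t) + k)` with constant term near `± α v_n`

Let `f` be any integral polynomial in `m` variables of degree at least two and let `v_n` grow at least like `exp (n ^ δ)`, for
example `v_n = b ^ n`: for almost all `α > 0`, for every large finite set `T` of primes, every precision `N` and every `B`, for
all large `n` ALL integers `k` with `| |k| - α v_n | ≤ (log v_n) ^ B` which satisfy the condition at the real place are such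
that weak approximation holds for `V_k` at the primes of `T`, to the precision `N`.
-/

set_option autoImplicit false

namespace Pool.Agent.Results.MP_12adaf_nt.WindowsOfShifts

open Finset MvPolynomial Filter Topology MeasureTheory
open Pool.Agent.Results.MP_12adaf_nt.ShiftedPolynomials (WA RealCond)

/-- `v_n` grows at least like `exp (n ^ δ)` for some `δ > 0` -/
def Fast (v : ℕ → ℝ) : Prop := ∃ δ : ℝ, 0 < δ ∧ ∀ᶠ n : ℕ in atTop, (n : ℝ) ^ δ ≤ Real.log (v n)

/-- a family of properties of integers with `O (X / (log X) ^ U)` exceptions each, for all `U` -/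
lemma windows {ι : Type} [Countable ι] (P : ι → ℤ → Prop)
    (hP : ∀ i, ∀ U : ℕ, ∃ X₀ : ℕ, ∀ X : ℕ, X₀ ≤ X → ({k : ℤ | |k| ≤ (X : ℤ) ∧ ¬ P i k}.ncard : ℝ) ≤ X / Real.log X ^ U)
    {v : ℕ → ℝ} (hv : ∀ n, 1 ≤ v n) (hf : Fast v) :
    ∀ᵐ α : ℝ, 0 < α → ∀ i, ∀ B : ℕ, ∃ n₀ : ℕ, ∀ n : ℕ, n₀ ≤ n → ∀ k : ℤ,
      |(|(k : ℝ)|) - α * v n| ≤ Real.log (v n) ^ B → P i k := by
  have hall : ∀ᵐ α : ℝ, ∀ (i : ι) (B : ℕ), 0 < α → ∃ n₀ : ℕ, ∀ n : ℕ, n₀ ≤ n → ∀ k : ℤ,
      |(|(k : ℝ)|) - α * v n| ≤ Real.log (v n) ^ B → ¬ ¬ P i k := by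
    rw [ae_all_iff]
    intro i
    rw [ae_all_iff]
    intro B
    exact Pool.Agent.V11285.W6.ae_logZ (fun k => ¬ P i k) (hP i) hv hf B
  filter_upwards [hall] with α hα hα0 i B
  obtain ⟨n₀, hn₀⟩ := hα i B hα0
  exact ⟨n₀, fun n hn k hw => not_not.1 (hn₀ n hn k hw)⟩

/-- **All shifts in windows.** Let `f` be an integral polynomial of degree at least two in `m` variables, `aᵢ`, `cᵢ` nonzero
integers, `V_k : yᵢ² - aᵢ zᵢ² = cᵢ (f(t) + k) ≠ 0`, and let `v_n` grow at least like `exp (n ^ δ)`.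
(1) There is a finite set `T₀` of primes such that for almost all `α > 0`, for all finite sets `T ⊇ T₀` of primes and all `N`
and `B`, for all large `n` ALL `k` with `| |k| - α v_n | ≤ (log v_n) ^ B` and with the condition `RealCond` at the real place
satisfy weak approximation of level `N` at the primes of `T`. (2) If the degree is odd and all `cᵢ = 1` this holds for all `T`
and without `RealCond`. Examples: `v_n = b ^ n`. -/
theorem result :
    (∀ {m r : ℕ} (f : MvPolynomial (Fin m) ℤ) (_ : 2 ≤ f.totalDegree) (a c : Fin r → ℤ) (_ : ∀ i, a i ≠ 0)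
      (_ : ∀ i, c i ≠ 0) (v : ℕ → ℝ) (_ : ∀ n, 1 ≤ v n) (_ : Fast v),
      (∃ T₀ : Finset Nat.Primes, ∀ᵐ α : ℝ, 0 < α → ∀ T : Finset Nat.Primes, T₀ ⊆ T → ∀ N B : ℕ,
        ∃ n₀ : ℕ, ∀ n : ℕ, n₀ ≤ n → ∀ k : ℤ, |(|(k : ℝ)|) - α * v n| ≤ Real.log (v n) ^ B →
          RealCond f a c k → WA f a c T N k) ∧
      (Odd f.totalDegree → (∀ i, c i = 1) → ∀ᵐ α : ℝ, 0 < α → ∀ (T : Finset Nat.Primes) (N B : ℕ),
        ∃ n₀ : ℕ, ∀ n : ℕ, n₀ ≤ n → ∀ k : ℤ, |(|(k : ℝ)|) - α * v n| ≤ Real.log (v n) ^ B → WA f a c T N k)) ∧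
    (∀ b : ℝ, 1 < b → Fast (fun n : ℕ => b ^ n)) := by
  classical
  refine ⟨fun {m r} f hf a c ha hc v hv hfast => ?_, fun b hb => Pool.Agent.V11285.W4.fast_geom b hb⟩
  obtain ⟨⟨T₀, h1⟩, h2⟩ := ShiftedPolynomials.result f hf a c ha hc
  constructor
  · refine ⟨T₀, ?_⟩
    have h3 := windows (ι := {T : Finset Nat.Primes // T₀ ⊆ T} × ℕ)
      (fun i k => RealCond f a c k → WA f a c i.1.1 i.2 k) (fun i U => by
        obtain ⟨X₀, hX₀⟩ := h1 i.1.1 i.1.2 i.2 U
        refine ⟨X₀, fun X hX => ?_⟩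
        have e : {k : ℤ | |k| ≤ (X : ℤ) ∧ ¬ (RealCond f a c k → WA f a c i.1.1 i.2 k)} =
            (((Icc (-(X : ℤ)) X).filter (fun k => ¬ (RealCond f a c k → WA f a c i.1.1 i.2 k)) : Finset ℤ) :
              Set ℤ) := by
          ext k
          simp only [Set.mem_ofPred_eq, coe_filter, mem_Icc, abs_le]
        rw [e, Set.ncard_coe_finset]
        convert hX₀ X hX) hv hfast
    filter_upwards [h3] with α hα hα0 T hT N B
    exact hα hα0 (⟨T, hT⟩, N) B
  · intro hodd hc1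
    have h3 := windows (ι := Finset Nat.Primes × ℕ)
      (fun i k => WA f a c i.1 i.2 k) (fun i U => by
        obtain ⟨X₀, hX₀⟩ := h2 hodd hc1 i.1 i.2 U
        refine ⟨X₀, fun X hX => ?_⟩
        have e : {k : ℤ | |k| ≤ (X : ℤ) ∧ ¬ WA f a c i.1 i.2 k} =
            (((Icc (-(X : ℤ)) X).filter (fun k => ¬ WA f a c i.1 i.2 k) : Finset ℤ) : Set ℤ) := by
          ext k
          simp only [Set.mem_ofPred_eq, coe_filter, mem_Icc, abs_le]
        rw [e, Set.ncard_coe_finset]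
        convert hX₀ X hX) hv hfast
    filter_upwards [h3] with α hα hα0 T N B
    exact hα hα0 (T, N) B

end Pool.Agent.Results.MP_12adaf_nt.WindowsOfShifts
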